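import Mathlib
import Pool.Agent.R150.TT.Defs
import Pool.Agent.R150.TT.Lower
import Pool.Agent.R150.TT.Upper

/-!
# MP_38057e_co, Q1: `f(r,3) = (r-1)/r³` for every `r ≥ 4`

Lower bound. Let `v = f(𝒯,n)`. If `a`, `b` are sides of edges in two of the trees and both
`a \ b` and `b \ a` have more than `2v` labels, then every edge of the third tree has a side which
contains at most `v` labels of `a \ b` and at most `v` labels of `b \ a`; a sink vertex of this
orientation shows `|a \ b|, |b \ a| ≤ rv + 1`. This gives `|a ∩ b| ≤ 2v` for small sides, then the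
centroid branches of the trees are counted: either one tree has `r` branches with more than `4v`
labels, or each tree has exactly `r - 1` of them, and both cases give `(r-1) n ≤ r³ (v + 1)`.

Upper bound: three two-level spiders with product labelling.
-/

namespace Pool.Agent.Results.MP_38057e_co.ThreeTrees

open Pool.Agent.R150.TT Filter Topology

theorem num_lower {r : ℕ} (hr : 4 ≤ r) (n : ℕ) : (r - 1) * n ≤ r ^ 3 * (fNum r 3 n + 1) := by
  have hne : {m | ∃ T : Fin 3 → LTree r n, m = fFam T}.Nonempty := ⟨_, fam hr n, rfl⟩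
  obtain ⟨T, hT⟩ := Nat.sInf_mem hne
  have : fNum r 3 n = fFam T := hT
  rw [this]
  exact lower hr T

theorem num_upper {r : ℕ} (hr : 4 ≤ r) (n : ℕ) :
    fNum r 3 n ≤ (r - 1) ^ 4 * (n / LL r + 1) := by
  have h : fFam (fam hr n) ∈ {m | ∃ T : Fin 3 → LTree r n, m = fFam T} := ⟨_, rfl⟩
  exact (Nat.sInf_le h).trans (upper hr n)

/-- **Q1 of MP_38057e_co, in the affirmative.** For every integer `r ≥ 4`,
`f(r,3) = lim f(r,3,n)/n = (r-1)/r³`. -/
theorem result : ∀ r : ℕ, 4 ≤ r →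
    Tendsto (fun n : ℕ => (fNum r 3 n : ℝ) / n) atTop (𝓝 (((r : ℝ) - 1) / (r : ℝ) ^ 3)) := by
  intro r hr
  have hr0 : (4 : ℝ) ≤ r := by exact_mod_cast hr
  have hinv : Tendsto (fun n : ℕ => 1 / (n : ℝ)) atTop (𝓝 0) :=
    tendsto_one_div_atTop_nhds_zero_nat
  have hlo : Tendsto (fun n : ℕ => ((r : ℝ) - 1) / (r : ℝ) ^ 3 - 1 / (n : ℝ)) atTop
      (𝓝 (((r : ℝ) - 1) / (r : ℝ) ^ 3)) := by
    simpa using hinv.const_sub (((r : ℝ) - 1) / (r : ℝ) ^ 3)
  have hhi : Tendsto (fun n : ℕ => ((r : ℝ) - 1) / (r : ℝ) ^ 3 + ((r : ℝ) - 1) ^ 4 * (1 / (n : ℝ)))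
      atTop (𝓝 (((r : ℝ) - 1) / (r : ℝ) ^ 3)) := by
    simpa using (hinv.const_mul (((r : ℝ) - 1) ^ 4)).const_add (((r : ℝ) - 1) / (r : ℝ) ^ 3)
  refine tendsto_of_tendsto_of_tendsto_of_le_of_le' hlo hhi ?_ ?_
  · filter_upwards [eventually_gt_atTop 0] with n hn
    have hn' : (0 : ℝ) < n := by exact_mod_cast hn
    have h := num_lower hr n
    have h' : ((r : ℝ) - 1) * n ≤ (r : ℝ) ^ 3 * (fNum r 3 n + 1) := by
      have : (((r - 1 : ℕ) : ℝ)) = (r : ℝ) - 1 := by
        rw [Nat.cast_sub (by omega)]; simp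
      rw [← this]
      exact_mod_cast h
    have hr3 : (0 : ℝ) < (r : ℝ) ^ 3 := by positivity
    rw [sub_le_iff_le_add, ← add_div, div_le_div_iff₀ hr3 hn']
    linarith
  · filter_upwards [eventually_gt_atTop 0] with n hn
    have hn' : (0 : ℝ) < n := by exact_mod_cast hn
    have h := num_upper hr n
    have hq : (((r - 1 : ℕ) : ℝ)) = (r : ℝ) - 1 := by
      rw [Nat.cast_sub (by omega)]; simp
    have hLL : ((LL r : ℕ) : ℝ) = ((r : ℝ) * ((r : ℝ) - 1)) ^ 3 := by
      unfold LL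
      push_cast
      rw [hq]
    have hr1 : (0 : ℝ) < (r : ℝ) - 1 := by linarith
    have hLLpos : (0 : ℝ) < ((LL r : ℕ) : ℝ) := by
      rw [hLL]; positivity
    have hdiv : ((n / LL r : ℕ) : ℝ) ≤ (n : ℝ) / (LL r : ℕ) := Nat.cast_div_le
    have h' : (fNum r 3 n : ℝ) ≤ ((r : ℝ) - 1) ^ 4 * ((n : ℝ) / (LL r : ℕ) + 1) := by
      have h1 : (fNum r 3 n : ℝ) ≤ (((r - 1 : ℕ) : ℝ)) ^ 4 * (((n / LL r : ℕ) : ℝ) + 1) := by
        exact_mod_cast h
      rw [hq] at h1
      refine h1.trans ?_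
      apply mul_le_mul_of_nonneg_left _ (by positivity)
      linarith
    rw [div_le_iff₀ hn']
    refine h'.trans (le_of_eq ?_)
    rw [hLL]
    field_simp

end Pool.Agent.Results.MP_38057e_co.ThreeTrees
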